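import Pool.Agent.W993.SD.Basic

set_option autoImplicit false
open MeasureTheory ProbabilityTheory

/-! SD-9: the tail of the primal solution from the tail of the dual solution, by duality. -/

namespace Pool.Agent.W583.SD

open W993.SD

variable {m n k : ℕ}

/-- the dual matrix -/
def nt (A : Fin m → Fin n → ℝ) : Fin n → Fin m → ℝ := fun j i => - A i j

theorem sub_nt (A : Fin m → Fin n → ℝ) (f : Fin k → Fin m) (h : Fin k → Fin n) :
    sub (nt A) h f = -(sub A f h).transpose := by
  ext a a'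
  simp [sub, nt]

theorem inv_nt (A : Fin m → Fin n → ℝ) (f : Fin k → Fin m) (h : Fin k → Fin n)
    (hd : (sub A f h).det ≠ 0) : (sub (nt A) h f)⁻¹ = -((sub A f h)⁻¹).transpose := by
  rw [sub_nt]
  apply Matrix.inv_eq_left_inv
  rw [neg_mul_neg, ← Matrix.transpose_mul, sub_mul_inv A f h hd, Matrix.transpose_one]

theorem xk_nt (A : Fin m → Fin n → ℝ) (c : Fin n → ℝ) (f : Fin k → Fin m) (h : Fin k → Fin n)
    (hd : (sub A f h).det ≠ 0) (a : Fin k) :
    xk (nt A) (fun j => - c j) h f a = yk A c f h a := by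
  unfold xk yk
  rw [inv_nt A f h hd]
  apply Finset.sum_congr rfl
  intro a' _
  simp [Matrix.transpose_apply]

theorem yk_nt (A : Fin m → Fin n → ℝ) (b : Fin m → ℝ) (f : Fin k → Fin m) (h : Fin k → Fin n)
    (hd : (sub A f h).det ≠ 0) (a : Fin k) :
    yk (nt A) (fun i => - b i) h f a = xk A b f h a := by
  unfold xk yk
  rw [inv_nt A f h hd]
  apply Finset.sum_congr rfl
  intro a' _
  simp [Matrix.transpose_apply]

theorem SO_nt (A : Fin m → Fin n → ℝ) (b : Fin m → ℝ) (c : Fin n → ℝ) (f : Fin k → Fin m)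
    (h : Fin k → Fin n) (H : SO A b c f h) :
    SO (nt A) (fun j => - c j) (fun i => - b i) h f := by
  obtain ⟨hd, hx, hy, hrow, hcol⟩ := H
  refine ⟨?_, ?_, ?_, ?_, ?_⟩
  · rw [sub_nt, Matrix.det_neg, Matrix.det_transpose]
    exact mul_ne_zero (pow_ne_zero _ (by norm_num)) hd
  · intro a; rw [xk_nt A c f h hd]; exact hy a
  · intro a; rw [yk_nt A b f h hd]; exact hx a
  · intro j hj
    have h1 := hcol j hj
    have h2 : ∑ a', nt A j (f a') * xk (nt A) (fun j => - c j) h f a' =
        -∑ a, A (f a) j * yk A c f h a := by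
      rw [← Finset.sum_neg_distrib]
      apply Finset.sum_congr rfl
      intro a _
      rw [xk_nt A c f h hd, nt]
      ring
    rw [h2]
    linarith
  · intro i hi
    have h1 := hrow i hi
    have h2 : ∑ a, nt A (h a) i * yk (nt A) (fun i => - b i) h f a =
        -∑ a', A i (h a') * xk A b f h a' := by
      rw [← Finset.sum_neg_distrib]
      apply Finset.sum_congr rfl
      intro a _
      rw [yk_nt A b f h hd, nt]
      ring
    rw [h2]
    linarith

/-- relabelling of the coordinates -/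
def dualE (m n : ℕ) : Idx m n ≃ Idx n m where
  toFun
    | .inl p => .inl (p.2, p.1)
    | .inr (.inl i) => .inr (.inr i)
    | .inr (.inr j) => .inr (.inl j)
  invFun
    | .inl p => .inl (p.2, p.1)
    | .inr (.inl i) => .inr (.inr i)
    | .inr (.inr j) => .inr (.inl j)
  left_inv := by rintro (p | (i | j)) <;> rfl
  right_inv := by rintro (p | (i | j)) <;> rfl

theorem tailX (H : S_TailY) : S_TailX := by
  obtain ⟨C, hC, HY⟩ := H
  refine ⟨C, hC, ?_⟩
  intro m n A₀ b₀ c₀ s H L R hs hs1 hH hL hR hBD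
  have key := HY n m (nt A₀) (fun j => - c₀ j) (fun i => - b₀ i) (-s) H L R (neg_ne_zero.2 hs)
    (by rw [abs_neg]; exact hs1) hH hL hR
    ⟨fun j i => by rw [nt, abs_neg]; exact hBD.1 i j, fun j => by rw [abs_neg]; exact hBD.2.2 j,
      fun i => by rw [abs_neg]; exact hBD.2.1 i⟩
  have hQ : Q n m H L (-s) = Q m n H L s := by
    unfold Q; rw [abs_neg]; ring
  rw [hQ] at key
  refine le_trans ?_ key
  have hmp : MeasurePreserving (MeasurableEquiv.piCongrLeft (fun _ : Idx n m => ℝ) (dualE m n))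
      (G (Idx m n)) (G (Idx n m)) :=
    measurePreserving_piCongrLeft (fun _ : Idx n m => gaussianReal 0 1) (dualE m n)
  rw [← hmp.measure_preimage_equiv]
  apply measure_mono
  rintro ω ⟨hB, k, f, h, hf, hh, hSO, a, ha⟩
  obtain ⟨ω', hω'⟩ : ∃ ω', ω' = MeasurableEquiv.piCongrLeft (fun _ : Idx n m => ℝ) (dualE m n) ω :=
    ⟨_, rfl⟩
  have hval : ∀ i : Idx m n, ω' (dualE m n i) = ω i := by
    intro i
    rw [hω']
    exact MeasurableEquiv.piCongrLeft_apply_apply (β := fun _ => ℝ) (dualE m n) ω i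
  have e1 : dA (nt A₀) (-s) ω' = nt (dA A₀ s ω) := by
    funext j i
    have := hval (Sum.inl (i, j))
    change ω' (Sum.inl (j, i)) = _ at this
    simp only [dA, nt, this]
    ring
  have e2 : dB (fun j => - c₀ j) (-s) ω' = fun j => - dC c₀ s ω j := by
    funext j
    have := hval (Sum.inr (Sum.inr j))
    change ω' (Sum.inr (Sum.inl j)) = _ at this
    simp only [dB, dC, this]
    ring
  have e3 : dC (fun i => - b₀ i) (-s) ω' = fun i => - dB b₀ s ω i := by
    funext i
    have := hval (Sum.inr (Sum.inl i))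
    change ω' (Sum.inr (Sum.inr i)) = _ at this
    simp only [dB, dC, this]
    ring
  rw [Set.mem_preimage, ← hω']
  refine ⟨?_, k, h, f, hh, hf, ?_, a, ?_⟩
  · intro i
    obtain ⟨i', rfl⟩ := (dualE m n).surjective i
    rw [hval]
    exact hB i'
  · rw [e1, e2, e3]
    exact SO_nt _ _ _ _ _ hSO
  · rw [e1, e3, yk_nt _ _ _ _ hSO.1]
    exact ha

end Pool.Agent.W583.SD
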