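import Pool.Agent.W993.SD.Basic

set_option autoImplicit false
open MeasureTheory

/-! SD-10: linear algebra of the centres. -/

namespace Pool.Agent.W583.SD

open W993.SD

variable {m n k : ℕ}

/-- one entry replaced by zero -/
def ZZ (i₀ : Fin m) (j₀ : Fin n) (A : Fin m → Fin n → ℝ) : Fin m → Fin n → ℝ :=
  fun i j => if i = i₀ ∧ j = j₀ then 0 else A i j

theorem ZZ_update (i₀ : Fin m) (j₀ : Fin n) (A : Fin m → Fin n → ℝ) (z : ℝ) :
    ZZ i₀ j₀ (Function.update A i₀ (Function.update (A i₀) j₀ z)) = ZZ i₀ j₀ A := by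
  funext i j
  unfold ZZ
  by_cases h : i = i₀ ∧ j = j₀
  · rw [if_pos h, if_pos h]
  · rw [if_neg h, if_neg h]
    by_cases hi : i = i₀
    · subst hi
      have hj : j ≠ j₀ := fun hj => h ⟨rfl, hj⟩
      rw [Function.update_self, Function.update_of_ne hj]
    · rw [Function.update_of_ne hi]

theorem measurable_ZZ (i₀ : Fin m) (j₀ : Fin n) : Measurable (ZZ i₀ j₀) := by
  apply measurable_pi_lambda
  intro i
  apply measurable_pi_lambda
  intro j
  unfold ZZ
  by_cases h : i = i₀ ∧ j = j₀
  · simp only [h, and_self, if_true]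
    exact measurable_const
  · simp only [h, if_false]
    exact measurable_entry i j

section mat

variable (M : Matrix (Fin k) (Fin k) ℝ) (a₀ a₀' : Fin k)

/-- one entry of a matrix replaced by zero -/
def zm : Matrix (Fin k) (Fin k) ℝ := Matrix.of fun a a' => if a = a₀ ∧ a' = a₀' then 0 else M a a'

theorem sub_ZZ (f : Fin k → Fin m) (h : Fin k → Fin n) (hf : Function.Injective f)
    (hh : Function.Injective h) (A : Fin m → Fin n → ℝ) :
    sub (ZZ (f a₀) (h a₀') A) f h = zm (sub A f h) a₀ a₀' := by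
  ext a a'
  simp only [sub, ZZ, zm, Matrix.of_apply, hf.eq_iff, hh.eq_iff]

theorem zm_updateRow (v : Fin k → ℝ) : (zm M a₀ a₀').updateRow a₀ v = M.updateRow a₀ v := by
  ext a a'
  by_cases ha : a = a₀
  · subst ha
    rw [Matrix.updateRow_self, Matrix.updateRow_self]
  · rw [Matrix.updateRow_ne ha, Matrix.updateRow_ne ha]
    simp only [zm, Matrix.of_apply]
    rw [if_neg (fun h => ha h.1)]

theorem zm_transpose : (zm M a₀ a₀').transpose = zm M.transpose a₀' a₀ := by
  ext a a'
  simp only [zm, Matrix.transpose_apply, Matrix.of_apply, and_comm]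

theorem adj_row (a' : Fin k) : (zm M a₀ a₀').adjugate a' a₀ = M.adjugate a' a₀ := by
  rw [Matrix.adjugate_apply, Matrix.adjugate_apply, zm_updateRow]

theorem adj_col (a : Fin k) : (zm M a₀ a₀').adjugate a₀' a = M.adjugate a₀' a := by
  have h1 : (zm M a₀ a₀').adjugate a₀' a = (zm M a₀ a₀').adjugate.transpose a a₀' := rfl
  have h2 : M.adjugate a₀' a = M.adjugate.transpose a a₀' := rfl
  rw [h1, h2, Matrix.adjugate_transpose, Matrix.adjugate_transpose, zm_transpose]
  exact adj_row M.transpose a₀' a₀ a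

theorem det_zm : M.det = M a₀ a₀' * M.adjugate a₀' a₀ + (zm M a₀ a₀').det := by
  have h1 : M = (zm M a₀ a₀').updateRow a₀ ((zm M a₀ a₀') a₀ + M a₀ a₀' • Pi.single a₀' 1) := by
    ext a a'
    by_cases ha : a = a₀
    · subst ha
      rw [Matrix.updateRow_self]
      by_cases ha' : a' = a₀'
      · subst ha'
        simp [zm]
      · simp [zm, ha']
    · rw [Matrix.updateRow_ne ha]
      simp [zm, ha]
  have h2 := Matrix.det_updateRow_add (zm M a₀ a₀') a₀ ((zm M a₀ a₀') a₀)
    (M a₀ a₀' • Pi.single a₀' 1)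
  rw [← h1, Matrix.updateRow_eq_self, Matrix.det_updateRow_smul, ← Matrix.adjugate_apply,
    adj_row] at h2
  rw [h2]
  ring

end mat

theorem centre : S_Centre := by
  classical
  intro m n k f h a₀ a₀' hf hh
  obtain ⟨Ad, hAd⟩ : ∃ Ad : (Fin m → Fin n → ℝ) → Fin k → Fin k → ℝ,
      Ad = fun A a a' => (sub (ZZ (f a₀) (h a₀') A) f h).adjugate a a' := ⟨_, rfl⟩
  have hAdm : ∀ a a', Measurable fun A => Ad A a a' := by
    intro a a'
    rw [hAd]
    exact (measurable_adj f h a a').comp (measurable_ZZ _ _)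
  have hAdu : ∀ A z, Ad (Function.update A (f a₀) (Function.update (A (f a₀)) (h a₀') z)) = Ad A := by
    intro A z
    rw [hAd]
    funext a a'
    show (sub (ZZ (f a₀) (h a₀') _) f h).adjugate a a' = _
    rw [ZZ_update]
  refine ⟨fun A => -((sub (ZZ (f a₀) (h a₀') A) f h).det) / Ad A a₀' a₀,
    fun A b => -∑ a, (if a = a₀ then 0 else Ad A a₀' a / Ad A a₀' a₀ * b (f a)),
    fun A c => -∑ a', (if a' = a₀' then 0 else Ad A a' a₀ / Ad A a₀' a₀ * c (h a')),
    ?_, ?_, ?_, ?_, ?_, ?_, ?_, ?_, ?_⟩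
  · exact (((measurable_det f h).comp (measurable_ZZ _ _)).neg).div (hAdm _ _)
  · have : (Function.uncurry fun (A : Fin m → Fin n → ℝ) (b : Fin m → ℝ) =>
        -∑ a, (if a = a₀ then 0 else Ad A a₀' a / Ad A a₀' a₀ * b (f a))) =
        fun x => -∑ a, (if a = a₀ then 0 else Ad x.1 a₀' a / Ad x.1 a₀' a₀ * x.2 (f a)) := rfl
    rw [this]
    refine (Finset.measurable_sum _ fun a _ => ?_).neg
    by_cases ha : a = a₀
    · simp only [ha, if_true]; exact measurable_const
    · simp only [ha, if_false]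
      exact (((hAdm _ _).comp measurable_fst).div ((hAdm _ _).comp measurable_fst)).mul
        ((measurable_pi_apply (f a)).comp measurable_snd)
  · have : (Function.uncurry fun (A : Fin m → Fin n → ℝ) (c : Fin n → ℝ) =>
        -∑ a', (if a' = a₀' then 0 else Ad A a' a₀ / Ad A a₀' a₀ * c (h a'))) =
        fun x => -∑ a', (if a' = a₀' then 0 else Ad x.1 a' a₀ / Ad x.1 a₀' a₀ * x.2 (h a')) := rfl
    rw [this]
    refine (Finset.measurable_sum _ fun a _ => ?_).neg
    by_cases ha : a = a₀'
    · simp only [ha, if_true]; exact measurable_const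
    · simp only [ha, if_false]
      exact (((hAdm _ _).comp measurable_fst).div ((hAdm _ _).comp measurable_fst)).mul
        ((measurable_pi_apply (h a)).comp measurable_snd)
  · intro A z
    show -(_ : ℝ) / _ = -(_ : ℝ) / _
    rw [hAdu, ZZ_update]
  · intro A b z
    show -∑ a, _ = -∑ a, _
    rw [hAdu]
  · intro A b z
    show -∑ a, _ = -∑ a, _
    congr 1
    apply Finset.sum_congr rfl
    intro a _
    by_cases ha : a = a₀
    · rw [if_pos ha, if_pos ha]
    · rw [if_neg ha, if_neg ha, Function.update_of_ne (fun he => ha (hf he))]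
  · intro A c z
    show -∑ a, _ = -∑ a, _
    rw [hAdu]
  · intro A c z
    show -∑ a, _ = -∑ a, _
    congr 1
    apply Finset.sum_congr rfl
    intro a _
    by_cases ha : a = a₀'
    · rw [if_pos ha, if_pos ha]
    · rw [if_neg ha, if_neg ha, Function.update_of_ne (fun he => ha (hh he))]
  · intro A b c hd hg
    have hC : (sub A f h).adjugate a₀' a₀ ≠ 0 := by
      intro h0
      apply hg
      rw [inv_entry_eq, h0, mul_zero]
    have hinv : ((sub A f h)⁻¹ a₀' a₀)⁻¹ = (sub A f h).det / (sub A f h).adjugate a₀' a₀ := by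
      rw [inv_entry_eq, mul_inv, inv_inv]
      rfl
    have e1 : ∀ a, Ad A a₀' a = (sub A f h).adjugate a₀' a := by
      intro a
      rw [hAd]
      show (sub (ZZ (f a₀) (h a₀') A) f h).adjugate a₀' a = _
      rw [sub_ZZ a₀ a₀' f h hf hh, adj_col]
    have e2 : ∀ a', Ad A a' a₀ = (sub A f h).adjugate a' a₀ := by
      intro a'
      rw [hAd]
      show (sub (ZZ (f a₀) (h a₀') A) f h).adjugate a' a₀ = _
      rw [sub_ZZ a₀ a₀' f h hf hh, adj_row]
    refine ⟨?_, ?_, ?_⟩
    · show A (f a₀) (h a₀') - -((sub (ZZ (f a₀) (h a₀') A) f h).det) / Ad A a₀' a₀ = _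
      rw [hinv, e1, det_zm (sub A f h) a₀ a₀', sub_ZZ a₀ a₀' f h hf hh]
      have : sub A f h a₀ a₀' = A (f a₀) (h a₀') := rfl
      rw [this]
      field_simp
      ring
    · show b (f a₀) - -∑ a, (if a = a₀ then 0 else Ad A a₀' a / Ad A a₀' a₀ * b (f a)) = _
      have h1 : b (f a₀) = ∑ a, (if a = a₀ then Ad A a₀' a / Ad A a₀' a₀ * b (f a) else 0) := by
        rw [Finset.sum_ite_eq' Finset.univ a₀, if_pos (Finset.mem_univ _), e1, div_self hC,
          one_mul]
      rw [sub_neg_eq_add]
      nth_rewrite 1 [h1]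
      rw [← Finset.sum_add_distrib, hinv]
      unfold xk
      rw [Finset.mul_sum]
      apply Finset.sum_congr rfl
      intro a _
      rw [inv_entry_eq, e1, e1]
      by_cases ha : a = a₀
      · rw [if_pos ha, if_pos ha]
        field_simp
        ring
      · rw [if_neg ha, if_neg ha]
        field_simp
        ring
    · show c (h a₀') - -∑ a', (if a' = a₀' then 0 else Ad A a' a₀ / Ad A a₀' a₀ * c (h a')) = _
      have h1 : c (h a₀') = ∑ a', (if a' = a₀' then Ad A a' a₀ / Ad A a₀' a₀ * c (h a') else 0) := by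
        rw [Finset.sum_ite_eq' Finset.univ a₀', if_pos (Finset.mem_univ _), e1, div_self hC,
          one_mul]
      rw [sub_neg_eq_add]
      nth_rewrite 1 [h1]
      rw [← Finset.sum_add_distrib, hinv]
      unfold yk
      rw [Finset.mul_sum]
      apply Finset.sum_congr rfl
      intro a' _
      rw [inv_entry_eq, e2, e1]
      by_cases ha : a' = a₀'
      · rw [if_pos ha, if_pos ha]
        field_simp
        ring
      · rw [if_neg ha, if_neg ha]
        field_simp
        ring

end Pool.Agent.W583.SD
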