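import Pool.Agent.W993.SD.Basic

set_option autoImplicit false

/-! SD-6: the deterministic inequality behind the tail bound of the dual optimum. -/

namespace Pool.Agent.W583.SD

open W993.SD

variable {m n k : ℕ}

theorem aug_castSucc (A : Fin m → Fin n → ℝ) (c : Fin n → ℝ) (i : Fin m) (j : Fin n) :
    aug A c i.castSucc j = A i j := by
  unfold aug
  rw [Fin.snoc_castSucc (α := fun _ => Fin n → ℝ)]

theorem aug_last (A : Fin m → Fin n → ℝ) (c : Fin n → ℝ) (j : Fin n) :
    aug A c (Fin.last m) j = - c j := by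
  unfold aug
  rw [Fin.snoc_last (α := fun _ => Fin n → ℝ)]

theorem gv_bdd (hm : 0 < m) (A : Fin m → Fin n → ℝ) (K : ℝ) (hK : ∀ i j, |A i j| ≤ K) :
    BddBelow (Set.range fun x : stdSimplex ℝ (Fin n) => ⨆ i : Fin m, ∑ j, A i j * x.1 j) := by
  refine ⟨-K, ?_⟩
  rintro _ ⟨x, rfl⟩
  have h1 : -K ≤ ∑ j, A ⟨0, hm⟩ j * x.1 j := by
    calc -K = ∑ j, -K * x.1 j := by rw [← Finset.mul_sum, x.2.2, mul_one]
      _ ≤ _ := by
        apply Finset.sum_le_sum
        intro j _
        apply mul_le_mul_of_nonneg_right _ (x.2.1 j)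
        exact (abs_le.1 (hK _ j)).1
  exact h1.trans (le_ciSup (f := fun i : Fin m => ∑ j, A i j * x.1 j)
    (Set.finite_range _).bddAbove ⟨0, hm⟩)

theorem gv_le (hm : 0 < m) (A : Fin m → Fin n → ℝ) (K : ℝ) (hK : ∀ i j, |A i j| ≤ K)
    (x : Fin n → ℝ) (hx : x ∈ stdSimplex ℝ (Fin n)) (r : ℝ) (h : ∀ i, ∑ j, A i j * x j ≤ r) :
    gv A ≤ r := by
  haveI : Nonempty (Fin m) := ⟨⟨0, hm⟩⟩
  unfold gv
  refine (ciInf_le (gv_bdd hm A K hK) ⟨x, hx⟩).trans ?_
  exact ciSup_le h

theorem simplex_nonempty (hn : 0 < n) : Nonempty (stdSimplex ℝ (Fin n)) :=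
  ⟨⟨Pi.single ⟨0, hn⟩ 1, single_mem_stdSimplex ℝ _⟩⟩

theorem le_gv (hn : 0 < n) (A : Fin m → Fin n → ℝ) (r : ℝ)
    (h : ∀ x : Fin n → ℝ, x ∈ stdSimplex ℝ (Fin n) → ∃ i, r ≤ ∑ j, A i j * x j) : r ≤ gv A := by
  haveI := simplex_nonempty hn
  unfold gv
  apply le_ciInf
  intro x
  obtain ⟨i, hi⟩ := h x.1 x.2
  exact hi.trans (le_ciSup (f := fun i : Fin m => ∑ j, A i j * x.1 j)
    (Set.finite_range _).bddAbove i)

/-- the full primal vector -/
noncomputable def full (h : Fin k → Fin n) (x : Fin k → ℝ) (j : Fin n) : ℝ :=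
  ∑ a, if h a = j then x a else 0

theorem full_nonneg (h : Fin k → Fin n) (x : Fin k → ℝ) (hx : ∀ a, 0 ≤ x a) (j : Fin n) :
    0 ≤ full h x j := by
  unfold full
  apply Finset.sum_nonneg
  intro a _
  split_ifs
  · exact hx a
  · exact le_refl _

theorem sum_full (h : Fin k → Fin n) (x : Fin k → ℝ) (w : Fin n → ℝ) :
    ∑ j, w j * full h x j = ∑ a, w (h a) * x a := by
  unfold full
  simp_rw [Finset.mul_sum]
  rw [Finset.sum_comm]
  apply Finset.sum_congr rfl
  intro a _
  rw [Finset.sum_eq_single (h a)]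
  · rw [if_pos rfl]
  · intro j _ hj
    rw [if_neg (Ne.symm hj), mul_zero]
  · intro hh
    exact absurd (Finset.mem_univ _) hh

theorem det : S_Det := by
  intro m n k A b c f h Λ R hm hn hΛ hR hBD hf hh hSO hy
  haveI : Nonempty (Fin m) := ⟨⟨0, hm⟩⟩
  obtain ⟨hd, hx0, hy0, hrow, hcol⟩ := hSO
  obtain ⟨hA, hb, hc⟩ := hBD
  obtain ⟨y, hydef⟩ : ∃ y : Fin k → ℝ, y = yk A c f h := ⟨_, rfl⟩
  obtain ⟨x, hxdef⟩ : ∃ x : Fin n → ℝ, x = full h (xk A b f h) := ⟨_, rfl⟩
  have hyp : ∀ a, 0 < y a := by rw [hydef]; exact hy0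
  obtain ⟨a₁, ha₁⟩ := hy
  have hS : R < ∑ a, y a := by
    have h1 : y a₁ ≤ ∑ a, y a := Finset.single_le_sum (fun a _ => (hyp a).le) (Finset.mem_univ _)
    have h2 : R < y a₁ := by rw [hydef]; exact ha₁
    linarith
  -- dual feasibility
  have hdual : ∀ j, c j ≤ ∑ a, A (f a) j * y a := by
    intro j
    by_cases hj : j ∈ Set.range h
    · obtain ⟨a', rfl⟩ := hj
      rw [hydef, yk_spec A c f h hd a']
    · rw [hydef]; exact (hcol j hj).le
  -- weak duality
  have hweak : ∀ z : Fin n → ℝ, (∀ j, 0 ≤ z j) →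
      ∑ j, c j * z j ≤ ∑ a, y a * ∑ j, A (f a) j * z j := by
    intro z hz
    calc ∑ j, c j * z j ≤ ∑ j, (∑ a, A (f a) j * y a) * z j :=
          Finset.sum_le_sum (fun j _ => mul_le_mul_of_nonneg_right (hdual j) (hz j))
      _ = ∑ a, y a * ∑ j, A (f a) j * z j := by
          simp_rw [Finset.sum_mul, Finset.mul_sum]
          rw [Finset.sum_comm]
          apply Finset.sum_congr rfl
          intro a _
          apply Finset.sum_congr rfl
          intro j _
          ring
  have hxn : ∀ j, 0 ≤ x j := by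
    rw [hxdef]; exact full_nonneg h _ (fun a => (hx0 a).le)
  have hxrow : ∀ i, ∑ j, A i j * x j ≤ b i := by
    intro i
    rw [hxdef, sum_full]
    by_cases hi : i ∈ Set.range f
    · obtain ⟨a, rfl⟩ := hi
      rw [xk_spec A b f h hd a]
    · exact (hrow i hi).le
  have hP : ∑ j, c j * x j = ∑ a, y a * b (f a) := by
    rw [hxdef, sum_full]
    calc ∑ a', c (h a') * xk A b f h a'
        = ∑ a', (∑ a, A (f a) (h a') * y a) * xk A b f h a' := by
          apply Finset.sum_congr rfl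
          intro a' _
          rw [hydef, yk_spec A c f h hd a']
      _ = ∑ a, y a * ∑ a', A (f a) (h a') * xk A b f h a' := by
          simp_rw [Finset.sum_mul, Finset.mul_sum]
          rw [Finset.sum_comm]
          apply Finset.sum_congr rfl
          intro a _
          apply Finset.sum_congr rfl
          intro j _
          ring
      _ = ∑ a, y a * b (f a) := by
          apply Finset.sum_congr rfl
          intro a _
          rw [xk_spec A b f h hd a]
  obtain ⟨P, hPdef⟩ : ∃ P : ℝ, P = ∑ j, c j * x j := ⟨_, rfl⟩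
  -- the distance
  have hbddD : BddBelow (Set.range fun x : {x : Fin n → ℝ // ∀ j, 0 ≤ x j} =>
      max (-1 : ℝ) (⨆ i : Fin m, (∑ j, A i j * x.1 j - b i))) := by
    refine ⟨-1, ?_⟩
    rintro _ ⟨z, rfl⟩
    exact le_max_left _ _
  haveI : Nonempty {x : Fin n → ℝ // ∀ j, 0 ≤ x j} := ⟨⟨x, hxn⟩⟩
  have hD1 : -1 ≤ Dist A b := le_ciInf (fun z => le_max_left _ _)
  have hD0 : Dist A b ≤ 0 := by
    refine (ciInf_le hbddD ⟨x, hxn⟩).trans ?_
    apply max_le (by norm_num)
    apply ciSup_le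
    intro i
    have := hxrow i
    show ∑ j, A i j * x j - b i ≤ 0
    linarith
  obtain ⟨D, hDdef⟩ : ∃ D : ℝ, D = -Dist A b := ⟨_, rfl⟩
  have hDabs : |Dist A b| = D := by rw [abs_of_nonpos hD0, hDdef]
  have hΛ0 : 0 < Λ := by linarith
  rcases eq_or_lt_of_le (show 0 ≤ D by linarith) with hDz | hDp
  · left
    rw [hDabs, ← hDz, zero_mul]
    positivity
  rw [hDabs]
  -- points at level `-D/2`
  have hlev : ∀ z : Fin n → ℝ, (∀ j, 0 ≤ z j) → (∀ i, ∑ j, A i j * z j ≤ b i - D / 2) →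
      D / 2 * R < P - ∑ j, c j * z j := by
    intro z hz hzr
    have h1 := hweak z hz
    have h2 : ∑ a, y a * ∑ j, A (f a) j * z j ≤ ∑ a, y a * (b (f a) - D / 2) :=
      Finset.sum_le_sum (fun a _ => mul_le_mul_of_nonneg_left (hzr (f a)) (hyp a).le)
    have h3 : ∑ a, y a * (b (f a) - D / 2) = P - D / 2 * ∑ a, y a := by
      rw [hPdef, hP, Finset.mul_sum, ← Finset.sum_sub_distrib]
      apply Finset.sum_congr rfl
      intro a _
      ring
    have h4 : D / 2 * R < D / 2 * ∑ a, y a := mul_lt_mul_of_pos_left hS (by linarith)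
    linarith
  obtain ⟨z, hz0, hzr⟩ : ∃ z : Fin n → ℝ, (∀ j, 0 ≤ z j) ∧
      ∀ i, ∑ j, A i j * z j ≤ b i - D / 2 := by
    have h1 : Dist A b < -(D / 2) := by linarith
    obtain ⟨z, hz⟩ := exists_lt_of_ciInf_lt h1
    refine ⟨z.1, z.2, ?_⟩
    intro i
    have h2 := lt_of_le_of_lt (le_max_right _ _) hz
    have h3 := le_ciSup (f := fun i : Fin m => ∑ j, A i j * z.1 j - b i)
      (Set.finite_range _).bddAbove i
    have h4 : ∑ j, A i j * z.1 j - b i < -(D / 2) := lt_of_le_of_lt h3 h2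
    linarith
  obtain ⟨M, hMdef⟩ : ∃ M : ℝ, M = D * R / 4 := ⟨_, rfl⟩
  have hMp : 0 < M := by rw [hMdef]; positivity
  have hDM : D * (Λ ^ 2 / M) = 4 * Λ ^ 2 / R := by
    rw [hMdef]; field_simp
  have hcz : ∀ w : Fin n → ℝ, (∀ j, 0 ≤ w j) → |∑ j, c j * w j| ≤ Λ * ∑ j, w j := by
    intro w hw
    calc |∑ j, c j * w j| ≤ ∑ j, |c j * w j| := Finset.abs_sum_le_sum_abs _ _
      _ ≤ ∑ j, Λ * w j := by
          apply Finset.sum_le_sum
          intro j _
          rw [abs_mul, abs_of_nonneg (hw j)]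
          exact mul_le_mul_of_nonneg_right (hc j) (hw j)
      _ = _ := by rw [Finset.mul_sum]
  have hbΛ : ∀ i, b i ≤ Λ := fun i => (abs_le.1 (hb i)).2
  have hbΛ' : ∀ i, -Λ ≤ b i := fun i => (abs_le.1 (hb i)).1
  have h16 : 0 < Λ ^ 2 / R := by positivity
  -- normalised points
  have hnorm : ∀ w : Fin n → ℝ, (∀ j, 0 ≤ w j) → 0 < ∑ j, w j →
      (fun j => w j / ∑ j, w j) ∈ stdSimplex ℝ (Fin n) := by
    intro w hw hw1
    refine ⟨fun j => div_nonneg (hw j) hw1.le, ?_⟩
    rw [← Finset.sum_div, div_self hw1.ne']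
  have hnorm' : ∀ (w u : Fin n → ℝ), ∑ j, u j * (w j / ∑ j, w j) =
      (∑ j, u j * w j) / ∑ j, w j := by
    intro w u
    rw [Finset.sum_div]
    apply Finset.sum_congr rfl
    intro j _
    ring
  rcases le_or_gt M P with hPM | hPM
  · -- case 1
    right
    have hX : P ≤ Λ * ∑ j, x j := by
      have := hcz x hxn
      rw [← hPdef] at this
      exact (le_abs_self P).trans this
    have hX0 : 0 < ∑ j, x j := by
      by_contra hneg
      have : Λ * ∑ j, x j ≤ 0 := mul_nonpos_of_nonneg_of_nonpos hΛ0.le (not_lt.1 hneg)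
      linarith
    have hup : gv (aug A c) ≤ Λ ^ 2 / M := by
      have hK : ∀ i j, |aug A c i j| ≤ Λ := by
        intro i j
        refine Fin.lastCases ?_ (fun i => ?_) i
        · rw [aug_last, abs_neg]; exact hc j
        · rw [aug_castSucc]; exact hA i j
      apply gv_le (Nat.succ_pos m) (aug A c) Λ hK _ (hnorm x hxn hX0)
      intro i
      refine Fin.lastCases ?_ (fun i => ?_) i
      · simp_rw [aug_last]
        rw [hnorm' x (fun j => - c j)]
        have h1 : ∑ j, -c j * x j = -P := by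
          rw [hPdef, ← Finset.sum_neg_distrib]
          apply Finset.sum_congr rfl
          intro j _
          ring
        rw [h1]
        have h2 : -P / ∑ j, x j ≤ 0 := div_nonpos_of_nonpos_of_nonneg (by linarith) hX0.le
        have h3 : 0 < Λ ^ 2 / M := by positivity
        linarith
      · simp_rw [aug_castSucc]
        rw [hnorm' x (fun j => A i j)]
        rw [div_le_div_iff₀ hX0 hMp]
        have h1 : ∑ j, A i j * x j ≤ Λ := (hxrow i).trans (hbΛ i)
        calc (∑ j, A i j * x j) * M ≤ Λ * M := mul_le_mul_of_nonneg_right h1 hMp.le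
          _ ≤ Λ * (Λ * ∑ j, x j) := mul_le_mul_of_nonneg_left (hPM.trans hX) hΛ0.le
          _ = Λ ^ 2 * ∑ j, x j := by ring
    have hlow : 0 ≤ gv (aug A c) := by
      apply le_gv hn
      intro w hw
      by_contra hneg
      have hneg' : ∀ i, ∑ j, aug A c i j * w j < 0 := by
        intro i
        by_contra h'
        exact hneg ⟨i, not_lt.1 h'⟩
      have h1 : ∀ i, ∑ j, A i j * w j < 0 := by
        intro i
        have := hneg' i.castSucc
        simp_rw [aug_castSucc] at this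
        exact this
      have h2 : 0 < ∑ j, c j * w j := by
        have := hneg' (Fin.last m)
        simp_rw [aug_last] at this
        have h3 : ∑ j, -c j * w j = -∑ j, c j * w j := by
          rw [← Finset.sum_neg_distrib]
          apply Finset.sum_congr rfl
          intro j _
          ring
        rw [h3] at this
        linarith
      have h3 := hweak w hw.1
      have h4 : ∑ a, y a * ∑ j, A (f a) j * w j ≤ 0 :=
        Finset.sum_nonpos (fun a _ => mul_nonpos_of_nonneg_of_nonpos (hyp a).le (h1 (f a)).le)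
      linarith
    rw [abs_of_nonneg hlow]
    calc D * gv (aug A c) ≤ D * (Λ ^ 2 / M) := mul_le_mul_of_nonneg_left hup hDp.le
      _ = 4 * Λ ^ 2 / R := hDM
      _ ≤ 16 * Λ ^ 2 / R := by
          rw [mul_div_assoc, mul_div_assoc]
          linarith
  · -- case 2
    left
    have hbig : ∀ w : Fin n → ℝ, (∀ j, 0 ≤ w j) → (∀ i, ∑ j, A i j * w j ≤ b i - D / 2) →
        M < Λ * ∑ j, w j := by
      intro w hw hwr
      have h1 := hlev w hw hwr
      have h2 := hcz w hw
      have h3 := neg_abs_le (∑ j, c j * w j)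
      have h4 : D / 2 * R = 2 * M := by rw [hMdef]; ring
      linarith
    have hz1 := hbig z hz0 hzr
    have hZ0 : 0 < ∑ j, z j := by
      by_contra hneg
      have : Λ * ∑ j, z j ≤ 0 := mul_nonpos_of_nonneg_of_nonpos hΛ0.le (not_lt.1 hneg)
      linarith
    have hup : gv A ≤ Λ ^ 2 / M := by
      apply gv_le hm A Λ hA _ (hnorm z hz0 hZ0)
      intro i
      rw [hnorm' z (fun j => A i j)]
      rw [div_le_div_iff₀ hZ0 hMp]
      have h1 : ∑ j, A i j * z j ≤ Λ := by
        have := hzr i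
        have := hbΛ i
        linarith
      calc (∑ j, A i j * z j) * M ≤ Λ * M := mul_le_mul_of_nonneg_right h1 hMp.le
        _ ≤ Λ * (Λ * ∑ j, z j) := mul_le_mul_of_nonneg_left hz1.le hΛ0.le
        _ = Λ ^ 2 * ∑ j, z j := by ring
    have hlow : -(2 * (Λ ^ 2 / M)) ≤ gv A := by
      apply le_gv hn
      intro w hw
      by_contra hneg
      have hneg' : ∀ i, ∑ j, A i j * w j < -(2 * (Λ ^ 2 / M)) := by
        intro i
        by_contra h'
        exact hneg ⟨i, not_lt.1 h'⟩
      obtain ⟨t, ht⟩ : ∃ t : ℝ, t = M / Λ := ⟨_, rfl⟩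
      have ht0 : 0 < t := by rw [ht]; positivity
      have h1 := hbig (fun j => t * w j) (fun j => mul_nonneg ht0.le (hw.1 j)) (by
        intro i
        have e1 : ∑ j, A i j * (t * w j) = t * ∑ j, A i j * w j := by
          rw [Finset.mul_sum]
          apply Finset.sum_congr rfl
          intro j _
          ring
        rw [e1]
        have e2 : t * ∑ j, A i j * w j ≤ t * (-(2 * (Λ ^ 2 / M))) :=
          mul_le_mul_of_nonneg_left (hneg' i).le ht0.le
        have e3 : t * (-(2 * (Λ ^ 2 / M))) = -(2 * Λ) := by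
          rw [ht]; field_simp
        have := hbΛ' i
        linarith)
      rw [← Finset.mul_sum, hw.2, mul_one, ht] at h1
      have h2 : Λ * (M / Λ) = M := by field_simp
      rw [h2] at h1
      exact lt_irrefl _ h1
    have habs : |gv A| ≤ 2 * (Λ ^ 2 / M) := by
      rw [abs_le]
      have : 0 < Λ ^ 2 / M := by positivity
      exact ⟨hlow, by linarith⟩
    calc D * |gv A| ≤ D * (2 * (Λ ^ 2 / M)) := mul_le_mul_of_nonneg_left habs hDp.le
      _ = 2 * (D * (Λ ^ 2 / M)) := by ring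
      _ = 2 * (4 * Λ ^ 2 / R) := by rw [hDM]
      _ ≤ 16 * Λ ^ 2 / R := by
          rw [mul_div_assoc, mul_div_assoc]
          linarith

end Pool.Agent.W583.SD
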