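import Pool.Agent.W993.SD.Basic

set_option autoImplicit false

/-! SD-11: the rank one update keeps the basic solution. -/

namespace Pool.Agent.W583.SD

open W993.SD

variable {m n k : ℕ}

theorem upd2 (A : Fin m → Fin n → ℝ) (i₀ : Fin m) (j₀ : Fin n) (t : ℝ) (i : Fin m) (j : Fin n) :
    Function.update A i₀ (Function.update (A i₀) j₀ (A i₀ j₀ + t)) i j =
      A i j + if i = i₀ ∧ j = j₀ then t else 0 := by
  by_cases hi : i = i₀
  · subst hi
    rw [Function.update_self]
    by_cases hj : j = j₀
    · subst hj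
      rw [Function.update_self, if_pos ⟨rfl, rfl⟩]
    · rw [Function.update_of_ne hj, if_neg (fun h => hj h.2), add_zero]
  · rw [Function.update_of_ne hi, if_neg (fun h => hi h.1), add_zero]

theorem upd1 (b : Fin m → ℝ) (i₀ : Fin m) (t : ℝ) (i : Fin m) :
    Function.update b i₀ (b i₀ + t) i = b i + if i = i₀ then t else 0 := by
  by_cases hi : i = i₀
  · subst hi
    rw [Function.update_self, if_pos rfl]
  · rw [Function.update_of_ne hi, if_neg hi, add_zero]

theorem rescale : S_Rescale := by
  intro m n k f h a₀ a₀' A b c κ hf hh hκ hSO hg u A' b' c'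
  have hA' : ∀ i j, A' i j = A i j + if i = f a₀ ∧ j = h a₀' then (κ - 1) * u else 0 :=
    upd2 A (f a₀) (h a₀') ((κ - 1) * u)
  have hb' : ∀ i, b' i = b i + if i = f a₀ then (κ - 1) * (u * xk A b f h a₀') else 0 :=
    upd1 b (f a₀) _
  have hc' : ∀ j, c' j = c j + if j = h a₀' then (κ - 1) * (u * yk A c f h a₀) else 0 :=
    upd1 c (h a₀') _
  obtain ⟨hd, hx0, hy0, hrow, hcol⟩ := hSO
  -- rows
  have rowsum : ∀ (v : Fin k → ℝ) (a : Fin k), ∑ a', A' (f a) (h a') * v a' =
      ∑ a', A (f a) (h a') * v a' + if a = a₀ then (κ - 1) * (u * v a₀') else 0 := by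
    intro v a
    have h1 : ∀ a', A' (f a) (h a') * v a' = A (f a) (h a') * v a' +
        if a' = a₀' then (if a = a₀ then (κ - 1) * (u * v a₀') else 0) else 0 := by
      intro a'
      rw [hA']
      by_cases h2 : a' = a₀'
      · subst h2
        by_cases h3 : a = a₀
        · subst h3
          rw [if_pos ⟨rfl, rfl⟩, if_pos rfl, if_pos rfl]
          ring
        · rw [if_neg (fun h4 => h3 (hf h4.1)), if_pos rfl, if_neg h3]
          ring
      · rw [if_neg (fun h4 => h2 (hh h4.2)), if_neg h2]
        ring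
    simp_rw [h1]
    rw [Finset.sum_add_distrib, Finset.sum_ite_eq' Finset.univ a₀', if_pos (Finset.mem_univ _)]
  have colsum : ∀ (v : Fin k → ℝ) (a' : Fin k), ∑ a, A' (f a) (h a') * v a =
      ∑ a, A (f a) (h a') * v a + if a' = a₀' then (κ - 1) * (u * v a₀) else 0 := by
    intro v a'
    have h1 : ∀ a, A' (f a) (h a') * v a = A (f a) (h a') * v a +
        if a = a₀ then (if a' = a₀' then (κ - 1) * (u * v a₀) else 0) else 0 := by
      intro a
      rw [hA']
      by_cases h2 : a = a₀
      · subst h2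
        by_cases h3 : a' = a₀'
        · subst h3
          rw [if_pos ⟨rfl, rfl⟩, if_pos rfl, if_pos rfl]
          ring
        · rw [if_neg (fun h4 => h3 (hh h4.2)), if_pos rfl, if_neg h3]
          ring
      · rw [if_neg (fun h4 => h2 (hf h4.1)), if_neg h2]
        ring
    simp_rw [h1]
    rw [Finset.sum_add_distrib, Finset.sum_ite_eq' Finset.univ a₀, if_pos (Finset.mem_univ _)]
  -- the determinant
  have hd' : (sub A' f h).det ≠ 0 := by
    intro h0
    obtain ⟨v, hv, hv0⟩ := Matrix.exists_mulVec_eq_zero_iff.2 h0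
    have h1 : ∀ a, ∑ a', A' (f a) (h a') * v a' = 0 := by
      intro a
      have := congrFun hv0 a
      simpa [Matrix.mulVec, dotProduct, sub] using this
    have h2 : (sub A f h).mulVec v = fun a => if a = a₀ then -((κ - 1) * (u * v a₀')) else 0 := by
      funext a
      have h3 := h1 a
      rw [rowsum] at h3
      have h4 : (sub A f h).mulVec v a = ∑ a', A (f a) (h a') * v a' := by
        simp [Matrix.mulVec, dotProduct, sub]
      rw [h4]
      by_cases h5 : a = a₀
      · rw [if_pos h5] at h3 ⊢; linarith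
      · rw [if_neg h5] at h3 ⊢; linarith
    have h3 : v = (sub A f h)⁻¹.mulVec
        (fun a => if a = a₀ then -((κ - 1) * (u * v a₀')) else 0) := by
      rw [← h2, Matrix.mulVec_mulVec, sub_inv_mul A f h hd, Matrix.one_mulVec]
    have h4 : ∀ a', v a' = (sub A f h)⁻¹ a' a₀ * -((κ - 1) * (u * v a₀')) := by
      intro a'
      have := congrFun h3 a'
      rw [this]
      simp [Matrix.mulVec, dotProduct]
    have h5 : v a₀' = -((κ - 1) * v a₀') := by
      have := h4 a₀'
      have hgu : (sub A f h)⁻¹ a₀' a₀ * u = 1 := mul_inv_cancel₀ hg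
      calc v a₀' = (sub A f h)⁻¹ a₀' a₀ * -((κ - 1) * (u * v a₀')) := this
        _ = -(((sub A f h)⁻¹ a₀' a₀ * u) * ((κ - 1) * v a₀')) := by ring
        _ = _ := by rw [hgu, one_mul]
    have h6 : v a₀' = 0 := by
      have : κ * v a₀' = 0 := by linarith
      rcases mul_eq_zero.1 this with h7 | h7
      · linarith
      · exact h7
    apply hv
    funext a'
    rw [h4 a', h6]
    simp
  have hxk : xk A' b' f h = xk A b f h := by
    apply xk_unique A' b' f h hd'
    intro a
    rw [rowsum, xk_spec A b f h hd a, hb']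
    by_cases h1 : a = a₀
    · rw [if_pos h1, if_pos (congrArg f h1)]
    · rw [if_neg h1, if_neg (fun h2 => h1 (hf h2))]
  have hyk : yk A' c' f h = yk A c f h := by
    apply yk_unique A' c' f h hd'
    intro a'
    rw [colsum, yk_spec A c f h hd a', hc']
    by_cases h1 : a' = a₀'
    · rw [if_pos h1, if_pos (congrArg h h1)]
    · rw [if_neg h1, if_neg (fun h2 => h1 (hh h2))]
  refine ⟨⟨hd', ?_, ?_, ?_, ?_⟩, fun a => congrFun hxk a, fun a => congrFun hyk a⟩
  · intro a; rw [hxk]; exact hx0 a
  · intro a; rw [hyk]; exact hy0 a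
  · intro i hi
    have hne : i ≠ f a₀ := fun he => hi ⟨a₀, he.symm⟩
    rw [hxk, hb', if_neg hne, add_zero]
    have : ∀ a', A' i (h a') = A i (h a') := by
      intro a'
      rw [hA', if_neg (fun h2 => hne h2.1), add_zero]
    simp_rw [this]
    exact hrow i hi
  · intro j hj
    have hne : j ≠ h a₀' := fun he => hj ⟨a₀', he.symm⟩
    rw [hyk, hc', if_neg hne, add_zero]
    have : ∀ a, A' (f a) j = A (f a) j := by
      intro a
      rw [hA', if_neg (fun h2 => hne h2.2), add_zero]
    simp_rw [this]
    exact hcol j hj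

end Pool.Agent.W583.SD
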