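import Pool.Agent.W583.SD.Det

set_option autoImplicit false
open MeasureTheory

/-! SD-7: measurability and shift behaviour of the thresholds. -/

namespace Pool.Agent.W583.SD

open W993.SD

variable {m n k : ℕ}

theorem meas_iInf {Ω : Type} [TopologicalSpace Ω] [MeasurableSpace Ω] [OpensMeasurableSpace Ω]
    {ι : Type} (F : ι → Ω → ℝ) (hc : ∀ i, Continuous (F i))
    (hb : ∀ ω, BddBelow (Set.range fun i => F i ω)) : Measurable fun ω => ⨅ i, F i ω :=
  (upperSemicontinuous_ciInf hb (fun i => (hc i).upperSemicontinuous)).measurable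

theorem cont_iSup {Ω : Type} [TopologicalSpace Ω] (hm : 0 < m) (g : Fin m → Ω → ℝ)
    (hc : ∀ i, Continuous (g i)) : Continuous fun ω => ⨆ i, g i ω := by
  have : Nonempty (Fin m) := ⟨⟨0, hm⟩⟩
  have h : (fun ω => ⨆ i, g i ω) =
      fun ω => Finset.univ.sup' Finset.univ_nonempty (fun i => g i ω) := by
    funext ω
    rw [Finset.sup'_univ_eq_ciSup]
  rw [h]
  exact Continuous.finset_sup'_apply Finset.univ_nonempty (fun i _ => hc i)

theorem sup_add (hm : 0 < m) (g : Fin m → ℝ) (t : ℝ) : (⨆ i, (g i + t)) = (⨆ i, g i) + t := by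
  have : Nonempty (Fin m) := ⟨⟨0, hm⟩⟩
  exact ((OrderIso.addRight t).map_ciSup (Set.finite_range g).bddAbove).symm

theorem bdd_of (A : Fin m → Fin n → ℝ) : ∃ K, ∀ i j, |A i j| ≤ K := by
  refine ⟨∑ i, ∑ j, |A i j|, fun i j => ?_⟩
  calc |A i j| ≤ ∑ j, |A i j| :=
        Finset.single_le_sum (f := fun j => |A i j|) (fun _ _ => abs_nonneg _) (Finset.mem_univ j)
    _ ≤ _ := Finset.single_le_sum (f := fun i => ∑ j, |A i j|)
        (fun _ _ => Finset.sum_nonneg fun _ _ => abs_nonneg _) (Finset.mem_univ i)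

theorem gv_add (hm : 0 < m) (hn : 0 < n) (A : Fin m → Fin n → ℝ) (t : ℝ) :
    gv (fun i j => A i j + t) = gv A + t := by
  have := simplex_nonempty hn
  obtain ⟨K, hK⟩ := bdd_of A
  have h1 : ∀ x : stdSimplex ℝ (Fin n), (⨆ i : Fin m, ∑ j, (A i j + t) * x.1 j) =
      (⨆ i : Fin m, ∑ j, A i j * x.1 j) + t := by
    intro x
    rw [← sup_add hm]
    congr 1
    funext i
    have : ∑ j, (A i j + t) * x.1 j = ∑ j, A i j * x.1 j + ∑ j, t * x.1 j := by
      rw [← Finset.sum_add_distrib]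
      apply Finset.sum_congr rfl
      intro j _
      ring
    rw [this, ← Finset.mul_sum, x.2.2, mul_one]
  unfold gv
  simp_rw [h1]
  exact ((OrderIso.addRight t).map_ciInf (gv_bdd hm A K hK)).symm

theorem aug_add (A : Fin m → Fin n → ℝ) (c : Fin n → ℝ) (t : ℝ) :
    aug (fun i j => A i j + t) (fun j => c j - t) = fun i j => aug A c i j + t := by
  funext i j
  refine Fin.lastCases ?_ (fun i => ?_) i
  · rw [aug_last, aug_last]; ring
  · rw [aug_castSucc, aug_castSucc]

theorem dist_bdd (A : Fin m → Fin n → ℝ) (b : Fin m → ℝ) :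
    BddBelow (Set.range fun x : {x : Fin n → ℝ // ∀ j, 0 ≤ x j} =>
      max (-1 : ℝ) (⨆ i : Fin m, (∑ j, A i j * x.1 j - b i))) := by
  refine ⟨-1, ?_⟩
  rintro _ ⟨z, rfl⟩
  exact le_max_left _ _

theorem orthant_nonempty : Nonempty {x : Fin n → ℝ // ∀ j, 0 ≤ x j} := ⟨⟨0, fun _ => le_refl _⟩⟩

theorem dist_shift (hm : 0 < m) (A : Fin m → Fin n → ℝ) (b : Fin m → ℝ) (t : ℝ)
    (h : -1 < Dist A (fun i => b i + t)) : Dist A (fun i => b i + t) ≤ Dist A b - t := by
  have := orthant_nonempty (n := n)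
  by_contra hcon
  rw [not_le] at hcon
  obtain ⟨r, hr1, hr2⟩ : ∃ r : ℝ, max (-1) (Dist A b - t) < r ∧ r < Dist A (fun i => b i + t) :=
    exists_between (max_lt h hcon)
  have hr3 : -1 < r := lt_of_le_of_lt (le_max_left _ _) hr1
  have hr4 : Dist A b < r + t := by
    have := lt_of_le_of_lt (le_max_right (-1 : ℝ) (Dist A b - t)) hr1
    linarith
  obtain ⟨x, hx⟩ := exists_lt_of_ciInf_lt hr4
  have h1 : (⨆ i : Fin m, (∑ j, A i j * x.1 j - b i)) < r + t :=
    lt_of_le_of_lt (le_max_right _ _) hx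
  have h2 : (⨆ i : Fin m, (∑ j, A i j * x.1 j - (b i + t))) =
      (⨆ i : Fin m, (∑ j, A i j * x.1 j - b i)) + -t := by
    rw [← sup_add hm]
    congr 1
    funext i
    ring
  have h3 : Dist A (fun i => b i + t) ≤
      max (-1 : ℝ) (⨆ i : Fin m, (∑ j, A i j * x.1 j - (b i + t))) :=
    ciInf_le (dist_bdd A (fun i => b i + t)) x
  rw [h2] at h3
  have h4 : max (-1 : ℝ) ((⨆ i : Fin m, (∑ j, A i j * x.1 j - b i)) + -t) < r :=
    max_lt hr3 (by linarith)
  linarith

theorem thr : S_Thr := by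
  intro m n A₀ b₀ c₀ s hm hn hs
  refine ⟨?_, ?_, ?_, fun A t => gv_add hm hn A t, ?_, ?_⟩
  · apply meas_iInf (fun (x : {x : Fin n → ℝ // ∀ j, 0 ≤ x j}) (ω : Idx m n → ℝ) =>
      max (-1 : ℝ) (⨆ i : Fin m, (∑ j, dA A₀ s ω i j * x.1 j - dB b₀ s ω i)))
    · intro x
      apply continuous_const.max
      apply cont_iSup hm
      intro i
      unfold dA dB
      fun_prop
    · intro ω
      exact dist_bdd _ _
  · apply meas_iInf (fun (x : stdSimplex ℝ (Fin n)) (ω : Idx m n → ℝ) =>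
      ⨆ i : Fin m, ∑ j, dA A₀ s ω i j * x.1 j)
    · intro x
      apply cont_iSup hm
      intro i
      unfold dA
      fun_prop
    · intro ω
      obtain ⟨K, hK⟩ := bdd_of (dA A₀ s ω)
      exact gv_bdd hm _ K hK
  · apply meas_iInf (fun (x : stdSimplex ℝ (Fin n)) (ω : Idx m n → ℝ) =>
      ⨆ i : Fin (m + 1), ∑ j, aug (dA A₀ s ω) (dC c₀ s ω) i j * x.1 j)
    · intro x
      apply cont_iSup (Nat.succ_pos m)
      intro i
      refine Fin.lastCases ?_ (fun i => ?_) i
      · simp_rw [aug_last]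
        unfold dC
        fun_prop
      · simp_rw [aug_castSucc]
        unfold dA
        fun_prop
    · intro ω
      obtain ⟨K, hK⟩ := bdd_of (aug (dA A₀ s ω) (dC c₀ s ω))
      exact gv_bdd (Nat.succ_pos m) _ K hK
  · intro A c t
    rw [aug_add, gv_add (Nat.succ_pos m) hn]
  · intro A b t x₀ hx0 hx1 h1 h2
    have a1 := abs_le.1 h1
    have a2 := abs_le.1 h2
    rcases le_total 0 t with ht | ht
    · rw [abs_of_nonneg ht]
      have := dist_shift hm A b t (by linarith)
      linarith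
    · rw [abs_of_nonpos ht]
      have hb : (fun i => (b i + t) + -t) = b := by funext i; ring
      have := dist_shift hm A (fun i => b i + t) (-t) (by rw [hb]; linarith)
      rw [hb] at this
      linarith

end Pool.Agent.W583.SD
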