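import Pool.Agent.W583.SD.Det

set_option autoImplicit false

/-! SD-5: a strictly optimal basis is the only one. -/

namespace Pool.Agent.W583.SD

open W993.SD

variable {m n k : ℕ}

theorem full_apply (h : Fin k → Fin n) (hh : Function.Injective h) (x : Fin k → ℝ) (a : Fin k) :
    full h x (h a) = x a := by
  unfold full
  rw [Finset.sum_eq_single a]
  · rw [if_pos rfl]
  · intro a' _ ha'
    rw [if_neg (fun he => ha' (hh he))]
  · intro hx
    exact absurd (Finset.mem_univ _) hx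

theorem full_zero (h : Fin k → Fin n) (x : Fin k → ℝ) (j : Fin n) (hj : j ∉ Set.range h) :
    full h x j = 0 := by
  unfold full
  apply Finset.sum_eq_zero
  intro a _
  rw [if_neg (fun he => hj ⟨a, he⟩)]

/-- properties of the full vectors of a weakly optimal basis -/
theorem wo_facts {A : Fin m → Fin n → ℝ} {b : Fin m → ℝ} {c : Fin n → ℝ} {f : Fin k → Fin m}
    {h : Fin k → Fin n} (H : WO A b c f h) (x : Fin n → ℝ) (y : Fin m → ℝ) (hx : x = full h (xk A b f h))
    (hy : y = full f (yk A c f h)) :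
    (∀ j, 0 ≤ x j) ∧ (∀ i, 0 ≤ y i) ∧ (∀ i, ∑ j, A i j * x j ≤ b i) ∧
    (∀ j, c j ≤ ∑ i, A i j * y i) ∧ (∀ i ∈ Set.range f, ∑ j, A i j * x j = b i) ∧
    (∀ j ∈ Set.range h, ∑ i, A i j * y i = c j) ∧ (∑ j, c j * x j = ∑ i, b i * y i) := by
  obtain ⟨hd, hx0, hy0, hrow, hcol⟩ := H
  have e1 : ∀ i ∈ Set.range f, ∑ j, A i j * x j = b i := by
    rintro _ ⟨a, rfl⟩
    rw [hx, sum_full, xk_spec A b f h hd a]
  have e2 : ∀ j ∈ Set.range h, ∑ i, A i j * y i = c j := by
    rintro _ ⟨a, rfl⟩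
    rw [hy, sum_full f (yk A c f h) (fun i => A i (h a)), yk_spec A c f h hd a]
  have hx1 : ∀ j, 0 ≤ x j := by rw [hx]; exact full_nonneg h _ hx0
  have hy1 : ∀ i, 0 ≤ y i := by rw [hy]; exact full_nonneg f _ hy0
  refine ⟨hx1, hy1, ?_, ?_, e1, e2, ?_⟩
  · intro i
    by_cases hi : i ∈ Set.range f
    · exact (e1 i hi).le
    · rw [hx, sum_full]; exact hrow i hi
  · intro j
    by_cases hj : j ∈ Set.range h
    · exact (e2 j hj).ge
    · rw [hy, sum_full f (yk A c f h) (fun i => A i j)]; exact hcol j hj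
  · have g1 : ∑ j, c j * x j = ∑ j, (∑ i, A i j * y i) * x j := by
      apply Finset.sum_congr rfl
      intro j _
      by_cases hj : j ∈ Set.range h
      · rw [e2 j hj]
      · rw [hx, full_zero h _ j hj, mul_zero, mul_zero]
    have g2 : ∑ i, b i * y i = ∑ i, (∑ j, A i j * x j) * y i := by
      apply Finset.sum_congr rfl
      intro i _
      by_cases hi : i ∈ Set.range f
      · rw [e1 i hi]
      · rw [hy, full_zero f _ i hi, mul_zero, mul_zero]
    rw [g1, g2]
    simp_rw [Finset.sum_mul]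
    rw [Finset.sum_comm]
    apply Finset.sum_congr rfl
    intro i _
    apply Finset.sum_congr rfl
    intro j _
    ring

theorem swap_sum (A : Fin m → Fin n → ℝ) (x : Fin n → ℝ) (y : Fin m → ℝ) :
    ∑ j, (∑ i, A i j * y i) * x j = ∑ i, (∑ j, A i j * x j) * y i := by
  simp_rw [Finset.sum_mul]
  rw [Finset.sum_comm]
  apply Finset.sum_congr rfl
  intro i _
  apply Finset.sum_congr rfl
  intro j _
  ring

theorem unique : S_Unique := by
  intro m n k k' A b c f h f' h' hf hh hf' hh' hSO hWO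
  obtain ⟨x, hx⟩ : ∃ x : Fin n → ℝ, x = full h (xk A b f h) := ⟨_, rfl⟩
  obtain ⟨y, hy⟩ : ∃ y : Fin m → ℝ, y = full f (yk A c f h) := ⟨_, rfl⟩
  obtain ⟨x', hx'⟩ : ∃ x : Fin n → ℝ, x = full h' (xk A b f' h') := ⟨_, rfl⟩
  obtain ⟨y', hy'⟩ : ∃ y : Fin m → ℝ, y = full f' (yk A c f' h') := ⟨_, rfl⟩
  obtain ⟨x0, y0, xr, yc, xe, ye, hcb⟩ := wo_facts hSO.wo x y hx hy
  obtain ⟨x0', y0', xr', yc', xe', ye', hcb'⟩ := wo_facts hWO x' y' hx' hy'
  -- the chain of inequalities
  have i1 : ∀ j, c j * x j ≤ (∑ i, A i j * y' i) * x j := fun j =>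
    mul_le_mul_of_nonneg_right (yc' j) (x0 j)
  have i2 : ∀ i, (∑ j, A i j * x j) * y' i ≤ b i * y' i := fun i =>
    mul_le_mul_of_nonneg_right (xr i) (y0' i)
  have i3 : ∀ j, c j * x' j ≤ (∑ i, A i j * y i) * x' j := fun j =>
    mul_le_mul_of_nonneg_right (yc j) (x0' j)
  have i4 : ∀ i, (∑ j, A i j * x' j) * y i ≤ b i * y i := fun i =>
    mul_le_mul_of_nonneg_right (xr' i) (y0 i)
  have s1 : ∑ j, c j * x j ≤ ∑ j, (∑ i, A i j * y' i) * x j := Finset.sum_le_sum fun j _ => i1 j
  have s2 : ∑ i, (∑ j, A i j * x j) * y' i ≤ ∑ i, b i * y' i := Finset.sum_le_sum fun i _ => i2 i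
  have s3 : ∑ j, c j * x' j ≤ ∑ j, (∑ i, A i j * y i) * x' j := Finset.sum_le_sum fun j _ => i3 j
  have s4 : ∑ i, (∑ j, A i j * x' j) * y i ≤ ∑ i, b i * y i := Finset.sum_le_sum fun i _ => i4 i
  have w1 := swap_sum A x y'
  have w2 := swap_sum A x' y
  have t2 : ∑ i, (∑ j, A i j * x j) * y' i = ∑ i, b i * y' i := by linarith
  have t3 : ∑ j, c j * x' j = ∑ j, (∑ i, A i j * y i) * x' j := by linarith
  have t4 : ∑ i, (∑ j, A i j * x' j) * y i = ∑ i, b i * y i := by linarith
  have u2 := (Finset.sum_eq_sum_iff_of_le (fun i _ => i2 i)).1 t2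
  have u3 := (Finset.sum_eq_sum_iff_of_le (fun j _ => i3 j)).1 t3
  have u4 := (Finset.sum_eq_sum_iff_of_le (fun i _ => i4 i)).1 t4
  -- `x' = 0` off the range of `h`
  have v3 : ∀ j, j ∉ Set.range h → x' j = 0 := by
    intro j hj
    have h1 := u3 j (Finset.mem_univ j)
    have h2 : c j < ∑ i, A i j * y i := by
      rw [hy, sum_full f (yk A c f h) (fun i => A i j)]
      exact hSO.2.2.2.2 j hj
    by_contra hne
    have h3 : 0 < x' j := lt_of_le_of_ne (x0' j) (Ne.symm hne)
    have h4 := mul_lt_mul_of_pos_right h2 h3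
    linarith
  have v4 : ∀ a, ∑ j, A (f a) j * x' j = b (f a) := by
    intro a
    have h1 := u4 (f a) (Finset.mem_univ _)
    have h2 : 0 < y (f a) := by
      rw [hy, full_apply f hf]
      exact hSO.2.2.1 a
    exact mul_right_cancel₀ h2.ne' h1
  -- `x' = x`
  have hsol : xk A b f h = fun a => x' (h a) := by
    apply xk_unique A b f h hSO.1
    intro a
    have h1 : x' = full h (fun a => x' (h a)) := by
      funext j
      by_cases hj : j ∈ Set.range h
      · obtain ⟨a', rfl⟩ := hj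
        rw [full_apply h hh]
      · rw [v3 j hj, full_zero h _ j hj]
    have h2 := v4 a
    rw [h1, sum_full h _ (fun j => A (f a) j)] at h2
    exact h2
  have hxx : x' = x := by
    funext j
    by_cases hj : j ∈ Set.range h
    · obtain ⟨a', rfl⟩ := hj
      rw [hx, full_apply h hh, hsol]
    · rw [v3 j hj, hx, full_zero h _ j hj]
  have sub1 : Set.range h ⊆ Set.range h' := by
    rintro _ ⟨a, rfl⟩
    by_contra hne
    have h1 : x' (h a) = 0 := by rw [hx', full_zero h' _ _ hne]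
    have h2 := hSO.2.1 a
    rw [hsol] at h2
    have h3 : 0 < x' (h a) := h2
    linarith
  have sub2 : Set.range f' ⊆ Set.range f := by
    intro i hi
    by_contra hne
    have h1 := xe' i hi
    have h2 := hSO.2.2.2.1 i hne
    rw [hxx, hx, sum_full] at h1
    linarith
  have c1 : (Set.range h).ncard = k := by
    rw [← Set.image_univ, Set.ncard_image_of_injective _ hh]; simp
  have c2 : (Set.range h').ncard = k' := by
    rw [← Set.image_univ, Set.ncard_image_of_injective _ hh']; simp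
  have c3 : (Set.range f).ncard = k := by
    rw [← Set.image_univ, Set.ncard_image_of_injective _ hf]; simp
  have c4 : (Set.range f').ncard = k' := by
    rw [← Set.image_univ, Set.ncard_image_of_injective _ hf']; simp
  have l1 := Set.ncard_le_ncard sub1 (Set.toFinite _)
  have l2 := Set.ncard_le_ncard sub2 (Set.toFinite _)
  rw [c1, c2] at l1
  rw [c3, c4] at l2
  have hkk : k = k' := le_antisymm l1 l2
  refine ⟨(Set.eq_of_subset_of_ncard_le sub2 ?_ (Set.toFinite _)).symm,
    Set.eq_of_subset_of_ncard_le sub1 ?_ (Set.toFinite _)⟩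
  · rw [c3, c4]; exact hkk.le
  · rw [c1, c2]; exact hkk.ge

end Pool.Agent.W583.SD
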